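import Mathlib
import Pool.Agent.Helper116_MU.Logs

set_option autoImplicit false

/-!
# Measures of algebraic independence for `e, log a_1, …, log a_n` and exponentially weighted logarithms

For positive rational numbers `a` and `x` let `L_a(x) = ∫_x^{ax} exp (-t) / t dt`, and let
`L_a(0) = log a`. (Without the weight `exp (-t)` the integral is `log a` for every `x`.) Let `a_1, …, a_n` be positive
rational numbers, and let `X` be a set of positive rational numbers such that the numbers `x`, `a_i x`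
(`x ∈ X`, `1 ≤ i ≤ n`) are pairwise distinct.

(1) Choose anchors `x_1, …, x_n ∈ {0} ∪ X`, one for each `a_i`, and let `L_{a_{g(j)}}(z_j)`, `1 ≤ j ≤ m`, be
numbers with different names `(g(j), z_j)`, `z_j ∈ {0} ∪ X`, which are not anchors: `z_j ≠ x_{g(j)}`. For every `D`
there are `κ` and `c > 0` such that for all nonzero polynomials `P_1, …, P_n` (in two variables) and `Q` (in `m + 1`
variables) with integer coefficients, of total degree at most `D` and with coefficients of absolute value at most `H`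
at least one of the numbers `|P_i(e, L_{a_i}(x_i))|`, `|Q(e, L_{a_{g(1)}}(z_1), …, L_{a_{g(m)}}(z_m))|` is at least
`c H^(-κ)`.

(2) If all the anchors `L_{a_i}(x_i)` are algebraic over `ℚ(e)`, then the numbers `e` and `L_{a_{g(j)}}(z_j)` have the
bound of the problem: `|Q| ≥ H^(-C)` for all nonzero integer polynomials of degree at most `d` and height at most `H`.

(3) So if for every `i` some `L_{a_i}(x)`, `x ∈ X`, is algebraic over `ℚ(e)`, then the answer to the problem is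
positive for `log a_1, …, log a_n`. In other words, if the bound of the problem fails for `log a_1, …, log a_n`, then
there is an `i` such that no `L_{a_i}(x)`, `x ∈ X`, is algebraic over `ℚ(e)`.

Proof.  `log a - L_a(x) = E(ax) - E(x)` with the E-function `E(x) = ∫_0^x (1 - exp (-t)) / t dt`; a measure in the
theorem of Siegel and Shidlovskii gives a measure for `e` and the numbers `L_{a_{g(j)}}(z_j) - L_{a_{g(j)}}(x_{g(j)})`.
The `n` unknown anchors are eliminated one after the other by resultants, along a sequence of scales `H`.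
-/

namespace Pool.Agent.Results.MP_3cf473_nt.WeightedLogarithmMeasures

open Set MeasureTheory

/-- `L_a(x) = ∫_x^{ax} exp (-t) / t dt`, and `L_a(0) = log a` -/
noncomputable def L (a x : ℚ) : ℝ :=
  if x = 0 then Real.log a else ∫ t in (x : ℝ)..(a * x), Real.exp (-t) / t

/-- the numbers `x` and `a_i x` (`x ∈ X`, `1 ≤ i ≤ n`) are pairwise distinct -/
def Distinct {n : ℕ} (a : Fin n → ℚ) (X : Set ℚ) : Prop :=
  InjOn (fun p : Option (Fin n) × ℚ => p.1.elim 1 a * p.2) {p | p.2 ∈ X}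

/-- `P` is not zero, its total degree is at most `D` and its coefficients are at most `H` in absolute
value -/
def Bounded {n : ℕ} (D : ℕ) (H : ℝ) (P : MvPolynomial (Fin n) ℤ) : Prop :=
  P ≠ 0 ∧ P.totalDegree ≤ D ∧ ∀ s, |((MvPolynomial.coeff s P : ℤ) : ℝ)| ≤ H

/-- the bound of the problem for the numbers `v_1, …, v_n` -/
def Bound {n : ℕ} (v : Fin n → ℝ) : Prop :=
  ∀ d : ℕ, 0 < d → ∃ C : ℝ, 0 < C ∧ ∀ H : ℝ, 2 ≤ H → ∀ P : MvPolynomial (Fin n) ℤ, Bounded d H P →
    H ^ (-C) ≤ |MvPolynomial.aeval v P|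

/-- `P(e, x) = 0` for some polynomial `P ≠ 0` with integer coefficients -/
def Related (x : ℝ) : Prop := ∃ P : MvPolynomial (Fin 2) ℤ, P ≠ 0 ∧ MvPolynomial.aeval ![Real.exp 1, x] P = 0

/-- the names `(g(j), z_j)` are different, `z_j ∈ {0} ∪ X`, and they are not names of anchors -/
def Admissible {n m : ℕ} (X : Set ℚ) (x : Fin n → ℚ) (g : Fin m → Fin n) (z : Fin m → ℚ) : Prop :=
  Function.Injective (fun j => (g j, z j)) ∧ (∀ j, z j ∈ insert 0 X) ∧ ∀ j, z j ≠ x (g j)

theorem L_eq {n : ℕ} (a : Fin n → ℚ) (ha : ∀ i, 0 < a i) (i : Fin n) {x : ℚ} (hx : 0 ≤ x) :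
    Real.log (a i) - Pool.Agent.Helper116_MU.cLg a i x = L (a i) x := by
  rw [Pool.Agent.Helper116_MU.cLg, L]
  split_ifs with h
  · exact sub_zero _
  · have hx' : 0 < x := lt_of_le_of_ne hx (Ne.symm h)
    rw [Pool.Agent.Helper116_WL.wl_eq (by exact_mod_cast ha i) (by exact_mod_cast hx')]

theorem coeff_rename_bound {ι κ : Type*} (e : ι ≃ κ) (P : MvPolynomial ι ℤ) {H : ℝ} (hH : 0 ≤ H)
    (h : ∀ s, |((MvPolynomial.coeff s P : ℤ) : ℝ)| ≤ H) (s : κ →₀ ℕ) :
    |((MvPolynomial.coeff s (MvPolynomial.rename e P) : ℤ) : ℝ)| ≤ H := by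
  classical
  by_cases hs : MvPolynomial.coeff s (MvPolynomial.rename e P) = 0
  · rw [hs]; simpa using hH
  · obtain ⟨u, hu, _⟩ := MvPolynomial.coeff_rename_ne_zero _ _ _ hs
    rw [← hu, MvPolynomial.coeff_rename_mapDomain e e.injective]
    exact h u

theorem main {n m : ℕ} (a : Fin n → ℚ) (ha : ∀ i, 0 < a i) (X : Set ℚ) (hX : ∀ x ∈ X, 0 < x)
    (hd : Distinct a X) (x : Fin n → ℚ) (hx : ∀ i, x i ∈ insert 0 X) (g : Fin m → Fin n) (z : Fin m → ℚ)
    (hz : Admissible X x g z) (D : ℕ) :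
    ∃ (κ : ℕ) (c : ℝ), 0 < c ∧ ∀ H : ℝ, 1 ≤ H → ∀ (P : Fin n → MvPolynomial (Fin 2) ℤ)
      (Q : MvPolynomial (Fin (m + 1)) ℤ), (∀ i, Bounded D H (P i)) → Bounded D H Q →
      (∃ i, c / H ^ κ ≤ |MvPolynomial.aeval ![Real.exp 1, L (a i) (x i)] (P i)|) ∨
        c / H ^ κ ≤
          |MvPolynomial.aeval (Fin.cons (Real.exp 1) (fun j => L (a (g j)) (z j)) : Fin (m + 1) → ℝ) Q| := by
  have hnn : ∀ w ∈ insert 0 X, (0 : ℚ) ≤ w := by
    rintro w (rfl | hw)
    · exact le_rfl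
    · exact (hX w hw).le
  obtain ⟨κ, c, hc, h⟩ := Pool.Agent.Helper116_MU.logs_multi a ha X hX hd (fun i => Real.log (a i)) x hx g z
    hz.1 hz.2.1 hz.2.2 D
  refine ⟨κ, c / 2, by positivity, fun H hH P Q hP hQ => ?_⟩
  by_contra hcon
  push Not at hcon
  obtain ⟨h1, h2⟩ := hcon
  have hHκ : 0 < H ^ κ := by positivity
  set Q' : MvPolynomial (Option (Fin m)) ℤ := MvPolynomial.rename (finSuccEquiv m) Q with hQ'
  have hQ'0 : Q' ≠ 0 := by
    intro h0
    apply hQ.1
    apply MvPolynomial.rename_injective _ (finSuccEquiv m).injective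
    rw [map_zero]
    exact h0
  have hQ'D : Q'.totalDegree ≤ D := (MvPolynomial.totalDegree_rename_le _ _).trans hQ.2.1
  have hQ'H := coeff_rename_bound (finSuccEquiv m) Q (by linarith) hQ.2.2
  have hev : MvPolynomial.aeval (fun o : Option (Fin m) => o.elim (Real.exp 1)
      (fun j => Real.log (a (g j)) - Pool.Agent.Helper116_MU.cLg a (g j) (z j))) Q' =
      MvPolynomial.aeval (Fin.cons (Real.exp 1) (fun j => L (a (g j)) (z j)) : Fin (m + 1) → ℝ) Q := by
    rw [hQ', MvPolynomial.aeval_rename]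
    congr 2
    funext j
    refine Fin.cases ?_ (fun i => ?_) j
    · simp
    · simp [L_eq a ha _ (hnn _ (hz.2.1 i))]
  have h3 := h P Q' (fun i => (hP i).1) hQ'0 (fun i => (hP i).2.1) hQ'D H hH (fun i => (hP i).2.2) hQ'H
    (c / 2 / H ^ κ) (fun i => by
      rw [L_eq a ha i (hnn _ (hx i))]
      exact (h1 i).le) (by
      rw [hev]
      exact h2.le)
  have h4 : H ^ κ * (c / 2 / H ^ κ) = c / 2 := by field_simp
  rw [h4] at h3
  linarith

theorem bound_of {m : ℕ} (v : Fin m → ℝ) (h : ∀ d : ℕ, ∃ (κ : ℕ) (c : ℝ), 0 < c ∧ ∀ H : ℝ, 2 ≤ H →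
    ∀ Q : MvPolynomial (Fin m) ℤ, Bounded d H Q → c / H ^ κ ≤ |MvPolynomial.aeval v Q|) : Bound v := by
  intro d _
  obtain ⟨κ, c, hc, hm⟩ := h d
  obtain ⟨k, hk⟩ := exists_pow_lt_of_lt_one hc (show (1 / 2 : ℝ) < 1 by norm_num)
  refine ⟨(κ + k + 1 : ℕ), by positivity, fun H hH P hP => le_trans ?_ (hm H hH P hP)⟩
  have hH0 : 0 < H := by linarith
  rw [Real.rpow_neg hH0.le, Real.rpow_natCast, le_div_iff₀ (by positivity), ← div_eq_inv_mul,
    div_le_iff₀ (by positivity)]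
  have h1 : (2 : ℝ) ^ k ≤ H ^ (k + 1) := by
    calc (2 : ℝ) ^ k ≤ H ^ k := pow_le_pow_left₀ (by norm_num) hH k
      _ ≤ H ^ (k + 1) := pow_le_pow_right₀ (by linarith) (by omega)
  have h2 : 1 < c * 2 ^ k := by
    rw [one_div, inv_pow, inv_lt_iff_one_lt_mul₀ (by positivity)] at hk
    linarith
  have h3 : 1 ≤ c * H ^ (k + 1) := by nlinarith
  calc H ^ κ = H ^ κ * 1 := (mul_one _).symm
    _ ≤ H ^ κ * (c * H ^ (k + 1)) := mul_le_mul_of_nonneg_left h3 (by positivity)
    _ = c * H ^ (κ + k + 1) := by ring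

theorem of_related {n m : ℕ} (a : Fin n → ℚ) (ha : ∀ i, 0 < a i) (X : Set ℚ) (hX : ∀ x ∈ X, 0 < x)
    (hd : Distinct a X) (x : Fin n → ℚ) (hx : ∀ i, x i ∈ insert 0 X) (g : Fin m → Fin n) (z : Fin m → ℚ)
    (hz : Admissible X x g z) (hr : ∀ i, Related (L (a i) (x i))) :
    Bound (Fin.cons (Real.exp 1) (fun j => L (a (g j)) (z j)) : Fin (m + 1) → ℝ) := by
  classical
  choose P hP0 hP using hr
  obtain ⟨H₀, hH₀1, hH₀⟩ : ∃ H₀ : ℝ, 1 ≤ H₀ ∧ ∀ i s, |((MvPolynomial.coeff s (P i) : ℤ) : ℝ)| ≤ H₀ := by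
    have h1 : ∀ i, 0 ≤ Pool.Agent.Helper116_EM.ml (P i) := fun i => Pool.Agent.Helper116_EM.ml_nonneg _
    refine ⟨1 + ∑ i, Pool.Agent.Helper116_EM.ml (P i), ?_, fun i s => ?_⟩
    · linarith [Finset.sum_nonneg fun i (_ : i ∈ Finset.univ) => h1 i]
    · have h2 := Pool.Agent.Helper116_EM.coeff_le_ml (P i) s
      have h3 := Finset.single_le_sum (fun i _ => h1 i) (Finset.mem_univ i)
      linarith
  refine bound_of _ fun d => ?_
  obtain ⟨κ, c, hc, h⟩ := main a ha X hX hd x hx g z hz (d + ∑ i, (P i).totalDegree)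
  refine ⟨κ, c / H₀ ^ κ, by positivity, fun H hH Q hQ => ?_⟩
  have hle : 1 ≤ H₀ * H := one_le_mul_of_one_le_of_one_le hH₀1 (by linarith)
  have h1 := h (H₀ * H) hle P Q (fun i => ⟨hP0 i, ?_, fun s => (hH₀ i s).trans ?_⟩)
    ⟨hQ.1, hQ.2.1.trans (by omega), fun s => (hQ.2.2 s).trans ?_⟩
  · rcases h1 with ⟨i, h1⟩ | h1
    · exfalso
      rw [hP i, abs_zero] at h1
      have : 0 < c / (H₀ * H) ^ κ := by positivity
      linarith
    · refine le_trans (le_of_eq ?_) h1
      rw [div_div, mul_pow]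
  · have h2 := Finset.single_le_sum (f := fun i => (P i).totalDegree) (fun _ _ => Nat.zero_le _) (Finset.mem_univ i)
    have h3 : (P i).totalDegree ≤ ∑ i, (P i).totalDegree := h2
    omega
  · exact le_mul_of_one_le_right (by linarith) (by linarith)
  · exact le_mul_of_one_le_left (by linarith) hH₀1

theorem bound_tail {n : ℕ} (η : ℝ) (v : Fin n → ℝ) (h : Bound (Fin.cons η v : Fin (n + 1) → ℝ)) : Bound v := by
  classical
  intro d hd
  obtain ⟨C, hC, hm⟩ := h d hd
  refine ⟨C, hC, fun H hH P hP => ?_⟩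
  have h1 := hm H hH (MvPolynomial.rename Fin.succ P) ⟨fun h0 => hP.1
    (MvPolynomial.rename_injective _ (Fin.succ_injective n) (by rw [h0, map_zero])),
    (MvPolynomial.totalDegree_rename_le _ _).trans hP.2.1, fun s => by
      by_cases hs : MvPolynomial.coeff s (MvPolynomial.rename Fin.succ P) = 0
      · rw [hs]; simp only [Int.cast_zero, abs_zero]; linarith
      · obtain ⟨u, hu, _⟩ := MvPolynomial.coeff_rename_ne_zero _ _ _ hs
        rw [← hu, MvPolynomial.coeff_rename_mapDomain _ (Fin.succ_injective n)]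
        exact hP.2.2 u⟩
  rw [MvPolynomial.aeval_rename] at h1
  exact h1

theorem result {n : ℕ} (a : Fin n → ℚ) (ha : ∀ i, 0 < a i) (X : Set ℚ) (hX : ∀ x ∈ X, 0 < x)
    (hd : Distinct a X) :
    -- (1)
    (∀ (x : Fin n → ℚ), (∀ i, x i ∈ insert 0 X) → ∀ (m : ℕ) (g : Fin m → Fin n) (z : Fin m → ℚ),
      Admissible X x g z → ∀ D : ℕ, ∃ (κ : ℕ) (c : ℝ), 0 < c ∧ ∀ H : ℝ, 1 ≤ H →
        ∀ (P : Fin n → MvPolynomial (Fin 2) ℤ) (Q : MvPolynomial (Fin (m + 1)) ℤ),
          (∀ i, Bounded D H (P i)) → Bounded D H Q →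
          (∃ i, c / H ^ κ ≤ |MvPolynomial.aeval ![Real.exp 1, L (a i) (x i)] (P i)|) ∨
            c / H ^ κ ≤
              |MvPolynomial.aeval (Fin.cons (Real.exp 1) (fun j => L (a (g j)) (z j)) : Fin (m + 1) → ℝ) Q|) ∧
    -- (2)
    (∀ (x : Fin n → ℚ), (∀ i, x i ∈ insert 0 X) → ∀ (m : ℕ) (g : Fin m → Fin n) (z : Fin m → ℚ),
      Admissible X x g z → (∀ i, Related (L (a i) (x i))) →
        Bound (Fin.cons (Real.exp 1) (fun j => L (a (g j)) (z j)) : Fin (m + 1) → ℝ)) ∧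
    -- (3)
    ((∀ i, ∃ x ∈ X, Related (L (a i) x)) → Bound (fun i => Real.log (a i))) := by
  refine ⟨fun x hx m g z hz D => main a ha X hX hd x hx g z hz D,
    fun x hx m g z hz hr => of_related a ha X hX hd x hx g z hz hr, fun h => ?_⟩
  choose x hx hr using h
  have h1 := of_related a ha X hX hd x (fun i => Or.inr (hx i)) id (fun _ => 0)
    ⟨fun i j hij => (Prod.mk.inj hij).1, fun j => Or.inl rfl, fun j => (hX _ (hx j)).ne⟩ hr
  have h2 := bound_tail _ _ h1
  simpa [L] using h2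

end Pool.Agent.Results.MP_3cf473_nt.WeightedLogarithmMeasures
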